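import Pool.Agent.H70.UN.Targets2

/-! Row VLMW of the board uni_modules. -/

set_option autoImplicit false

namespace Pool.Agent.H70.UN

open Matrix Finset H43.PS

private theorem avw_mono {X : Type} [Fintype X] (f g : X → ℝ) (h : ∀ x, f x ≤ g x) : av f ≤ av g := by
  unfold av
  apply mul_le_mul_of_nonneg_left (Finset.sum_le_sum (fun x _ => h x))
  positivity

private theorem avw_const {X : Type} [Fintype X] [Nonempty X] (c : ℝ) : av (fun _ : X => c) = c := by
  unfold av
  have : (Fintype.card X : ℝ) ≠ 0 := by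
    have := Fintype.card_pos (α := X)
    positivity
  simp only [Finset.sum_const, Finset.card_univ, nsmul_eq_mul]
  field_simp

private theorem czw_congr {Θ : Type} [DecidableEq Θ] {N : ℕ} (σ : Fin N → ℝ) (u : Fin N → Option Θ)
    (z z' : Fin N → Θ) (h : ∀ i ∈ spp u, z i = z' i) : czw σ z u = czw σ z' u := by
  unfold czw
  apply Finset.prod_congr rfl
  intro i _
  cases hu : u i with
  | none => rfl
  | some θ =>
    have hi : i ∈ spp u := by
      unfold spp
      rw [Finset.mem_filter]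
      exact ⟨Finset.mem_univ _, by rw [hu]; rfl⟩
    rw [h i hi]

theorem pf_VLMW (CCSW : T_CCSW) : T_VLMW := by
  intro Θ _ _ N d σ UU τ M μ _ w D X hcard hτ hσ hhi hU hD hP hX
  haveI : Nonempty Θ := Fintype.card_pos_iff.mp hcard
  haveI : Nonempty (Fin N → Θ) := inferInstance
  -- the parts
  set K : (Fin N → Θ) → μ → ℝ := fun z m => ∑ u, czw σ z u * w u m with hK
  set l : (Fin N → Θ) → μ → ℝ := fun z m => ∑ u ∈ univ.filter (fun u => spp u ∈ UU), czw σ z u * w u m with hl
  set k : (Fin N → Θ) → μ → ℝ := fun z m => ∑ u ∈ univ.filter (fun u => spp u ∉ UU), czw σ z u * w u m with hk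
  have hsum : ∀ z m, K z m = l z m + k z m := by
    intro z m
    simp only [hK, hl, hk]
    rw [← Finset.sum_filter_add_sum_filter_not univ (fun u : Fin N → Option Θ => spp u ∈ UU)]
  have hM : 0 ≤ M := by
    obtain ⟨z⟩ := (inferInstance : Nonempty (Fin N → Θ))
    exact le_trans (abs_nonneg _) (hD z)
  have hc0 : (0 : ℝ) ≤ (Fintype.card (Fin N → Θ) : ℝ)⁻¹ := by positivity
  -- low part
  have hlow : 0 ≤ av (fun z => D z * ∑ m, l z m ^ 2) := by
    unfold av
    apply mul_nonneg hc0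
    have : ∑ z, D z * ∑ m, l z m ^ 2 = ∑ m, ∑ z, D z * l z m ^ 2 := by
      simp_rw [Finset.mul_sum]
      rw [Finset.sum_comm]
    rw [this]
    apply Finset.sum_nonneg
    intro m _
    have h1 := hP UU hU (fun T z => ∑ u ∈ univ.filter (fun u => spp u = T), czw σ z u * w u m) (by
      intro T _ z z' hz
      apply Finset.sum_congr rfl
      intro u hu
      have hu' := (Finset.mem_filter.mp hu).2
      rw [czw_congr σ u z z' (fun i hi => hz i (by rw [← hu']; exact hi))])
    have h2 : ∀ z, ∑ T ∈ UU, ∑ u ∈ univ.filter (fun u => spp u = T), czw σ z u * w u m = l z m := by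
      intro z
      simp only [hl]
      rw [← Finset.sum_fiberwise_of_maps_to (s := univ.filter (fun u : Fin N → Option Θ => spp u ∈ UU))
        (t := UU) (g := fun u => spp u) (fun u hu => (Finset.mem_filter.mp hu).2)]
      apply Finset.sum_congr rfl
      intro T hT
      apply Finset.sum_congr _ (fun _ _ => rfl)
      ext u
      simp only [Finset.mem_filter, Finset.mem_univ, true_and]
      constructor
      · intro h
        exact ⟨by rw [h]; exact hT, h⟩
      · intro h
        exact h.2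
    simp only [h2] at h1
    exact h1
  -- high part
  have hkz : ∀ z, ∑ m, k z m ^ 2 ≤ X := by
    intro z
    have h1 : ∀ m, k z m ^ 2 ≤ 2 ^ N * τ * ∑ u, w u m ^ 2 := by
      intro m
      exact CCSW Θ N σ UU τ (fun u => w u m) z hτ hσ hhi
    calc ∑ m, k z m ^ 2 ≤ ∑ m, 2 ^ N * τ * ∑ u, w u m ^ 2 :=
          Finset.sum_le_sum (fun m _ => h1 m)
      _ = 2 ^ N * τ * ∑ u, ∑ m, w u m ^ 2 := by
          rw [← Finset.mul_sum, Finset.sum_comm]
      _ ≤ X := hX
  have hX0 : 0 ≤ X := by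
    obtain ⟨z⟩ := (inferInstance : Nonempty (Fin N → Θ))
    exact le_trans (Finset.sum_nonneg (fun m _ => sq_nonneg _)) (hkz z)
  have hkX : av (fun z => ∑ m, k z m ^ 2) ≤ X := by
    calc av (fun z => ∑ m, k z m ^ 2) ≤ av (fun _ : Fin N → Θ => X) := avw_mono _ _ hkz
      _ = X := avw_const X
  set Y : ℝ := av (fun z : Fin N → Θ => ∑ m, K z m ^ 2) with hY
  have hY0 : 0 ≤ Y := by
    rw [hY]
    unfold av
    apply mul_nonneg hc0
    exact Finset.sum_nonneg (fun z _ => Finset.sum_nonneg (fun m _ => sq_nonneg _))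
  -- Cauchy-Schwarz
  have hCS : av (fun z => ∑ m, |K z m * k z m|) ≤ Real.sqrt (Y * X) := by
    apply Real.le_sqrt_of_sq_le
    have h1 : (∑ z : Fin N → Θ, ∑ m, |K z m * k z m|) ^ 2 ≤
        (∑ z : Fin N → Θ, ∑ m, K z m ^ 2) * (∑ z : Fin N → Θ, ∑ m, k z m ^ 2) := by
      have e1 : ∑ z : Fin N → Θ, ∑ m, |K z m * k z m| =
          ∑ p : (Fin N → Θ) × μ, |K p.1 p.2| * |k p.1 p.2| := by
        rw [Fintype.sum_prod_type]
        apply Finset.sum_congr rfl
        intro z _
        apply Finset.sum_congr rfl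
        intro m _
        exact abs_mul _ _
      have e2 : ∑ z : Fin N → Θ, ∑ m, K z m ^ 2 = ∑ p : (Fin N → Θ) × μ, |K p.1 p.2| ^ 2 := by
        rw [Fintype.sum_prod_type]
        simp only [sq_abs]
      have e3 : ∑ z : Fin N → Θ, ∑ m, k z m ^ 2 = ∑ p : (Fin N → Θ) × μ, |k p.1 p.2| ^ 2 := by
        rw [Fintype.sum_prod_type]
        simp only [sq_abs]
      rw [e1, e2, e3]
      exact Finset.sum_mul_sq_le_sq_mul_sq _ _ _
    have h2 : (av (fun z => ∑ m, |K z m * k z m|)) ^ 2 ≤ Y * av (fun z => ∑ m, k z m ^ 2) := by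
      rw [hY]
      unfold av
      have h3 := mul_le_mul_of_nonneg_left h1 (mul_nonneg hc0 hc0)
      nlinarith [h3]
    exact le_trans h2 (mul_le_mul_of_nonneg_left hkX hY0)
  -- pointwise
  have hpt : ∀ z, D z * ∑ m, K z m ^ 2 ≥ D z * ∑ m, l z m ^ 2 -
      (2 * M * ∑ m, |K z m * k z m| + M * ∑ m, k z m ^ 2) := by
    intro z
    have e : ∑ m, K z m ^ 2 = ∑ m, l z m ^ 2 + (2 * ∑ m, K z m * k z m - ∑ m, k z m ^ 2) := by
      rw [Finset.mul_sum, ← Finset.sum_sub_distrib, ← Finset.sum_add_distrib]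
      apply Finset.sum_congr rfl
      intro m _
      rw [hsum z m]
      ring
    rw [e]
    have h1 : |D z * (2 * ∑ m, K z m * k z m)| ≤ 2 * M * ∑ m, |K z m * k z m| := by
      rw [abs_mul, abs_mul, abs_two]
      have h2 : |∑ m, K z m * k z m| ≤ ∑ m, |K z m * k z m| := Finset.abs_sum_le_sum_abs _ _
      calc |D z| * (2 * |∑ m, K z m * k z m|) ≤ M * (2 * ∑ m, |K z m * k z m|) :=
            mul_le_mul (hD z) (by linarith) (by positivity) hM
        _ = 2 * M * ∑ m, |K z m * k z m| := by ring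
    have h3 : |D z * ∑ m, k z m ^ 2| ≤ M * ∑ m, k z m ^ 2 := by
      rw [abs_mul]
      have h4 : 0 ≤ ∑ m, k z m ^ 2 := Finset.sum_nonneg (fun m _ => sq_nonneg _)
      rw [abs_of_nonneg h4]
      exact mul_le_mul_of_nonneg_right (hD z) h4
    have h5 := (abs_le.mp h1).1
    have h6 := (abs_le.mp h3).2
    have h7 : D z * (∑ m, l z m ^ 2 + (2 * ∑ m, K z m * k z m - ∑ m, k z m ^ 2)) =
        D z * ∑ m, l z m ^ 2 + D z * (2 * ∑ m, K z m * k z m) - D z * ∑ m, k z m ^ 2 := by ring
    rw [h7]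
    linarith
  have hfin : av (fun z => D z * ∑ m, l z m ^ 2 -
      (2 * M * ∑ m, |K z m * k z m| + M * ∑ m, k z m ^ 2)) ≤ av (fun z => D z * ∑ m, K z m ^ 2) :=
    avw_mono _ _ hpt
  have hlin : av (fun z => D z * ∑ m, l z m ^ 2 -
      (2 * M * ∑ m, |K z m * k z m| + M * ∑ m, k z m ^ 2)) =
      av (fun z => D z * ∑ m, l z m ^ 2) -
        (2 * M * av (fun z => ∑ m, |K z m * k z m|) + M * av (fun z => ∑ m, k z m ^ 2)) := by
    unfold av
    rw [Finset.sum_sub_distrib, Finset.sum_add_distrib, ← Finset.mul_sum, ← Finset.mul_sum]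
    ring
  rw [hlin] at hfin
  have a1 : M * av (fun z => ∑ m, |K z m * k z m|) ≤ M * Real.sqrt (Y * X) :=
    mul_le_mul_of_nonneg_left hCS hM
  have a2 : M * av (fun z => ∑ m, k z m ^ 2) ≤ M * X := mul_le_mul_of_nonneg_left hkX hM
  have goal' : - (M * (2 * Real.sqrt (Y * X) + X)) ≤ av (fun z => D z * ∑ m, K z m ^ 2) := by
    nlinarith [hfin, a1, a2, hlow]
  exact goal'

end Pool.Agent.H70.UN
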